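import Pool.Agent.Q278.DPd
import Pool.Agent.Q278.Blk

set_option autoImplicit false

/-!
# Positivity of sums of products of `q`-Delannoy numbers

All expressions live in the field `ℚ(q) = RatFunc ℚ`, with `q = RatFunc.X`.
-/

namespace Pool.Agent.Results.MP_870110_co.Full

open Finset

/-- The indeterminate `q`. -/
noncomputable abbrev q : RatFunc ℚ := RatFunc.X

/-- The Gaussian binomial coefficient `∏_{i=1}^{k} (1 - x^(n-k+i)) / (1 - x^i)` for `k ≤ n`, and
`0` for `n < k`. -/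
noncomputable def gauss (x : RatFunc ℚ) (n k : ℕ) : RatFunc ℚ :=
  if k ≤ n then ∏ i ∈ Icc 1 k, (1 - x ^ (n - k + i)) / (1 - x ^ i) else 0

/-- The `q`-Delannoy number with base `x`. -/
noncomputable def D (x : RatFunc ℚ) (m n : ℕ) : RatFunc ℚ :=
  ∑ k ∈ range (n + 1), x ^ (k * (k - 1) / 2) * gauss x n k * gauss x (n + m - k) n

/-- `P_k = D_q(m,k) D_{1/q}(m,k)`. -/
noncomputable def P (m k : ℕ) : RatFunc ℚ := D q m k * D q⁻¹ m k

/-- The sum `A`. -/
noncomputable def A (m n : ℕ) : RatFunc ℚ :=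
  (1 - q ^ m) * (1 - q ^ (m + 1)) / ((1 - q ^ 2) * (1 - q ^ n) ^ 2) *
    ∑ k ∈ range n, (1 - q ^ (2 * k + 1)) * q⁻¹ ^ k * P m k

/-- The sum `B`. -/
noncomputable def B (m n r : ℕ) : RatFunc ℚ :=
  1 / (1 - q ^ n) * ∑ k ∈ range n, (1 - q ^ (2 * k + 1)) * q⁻¹ ^ k * P m k ^ r

/-- The sum `C`. -/
noncomputable def C (m n r : ℕ) : RatFunc ℚ :=
  1 / (1 - q ^ n) * ∑ k ∈ range n, (-1) ^ (n - 1 - k) * (1 - q ^ (2 * k + 1)) *
    q ^ (k * (k - 1) / 2) * P m k ^ r

/-- `x` is a Laurent polynomial in `q` with nonnegative integer coefficients: `q ^ N * x = f(q)`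
for some natural number `N` and some polynomial `f` with coefficients in `ℕ`. -/
def NonnegLaurent (x : RatFunc ℚ) : Prop := ∃ (N : ℕ) (f : Polynomial ℕ),
  q ^ N * x = algebraMap (Polynomial ℚ) (RatFunc ℚ) (f.map (Nat.castRingHom ℚ))

theorem gauss_eq (x : RatFunc ℚ) (n k : ℕ) : gauss x n k = Q278.QDel.gb x n k := by
  unfold gauss
  split_ifs with h
  · unfold Q278.QDel.gb
    rw [← Finset.Ico_add_one_right_eq_Icc, Finset.prod_Ico_eq_prod_range, Nat.add_sub_cancel,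
      prod_div_distrib, prod_div_distrib]
    congr 1
    · rw [← prod_range_reflect]
      apply prod_congr rfl
      intro i hi
      have := mem_range.1 hi
      congr 2
      omega
    · apply prod_congr rfl
      intro i _
      rw [add_comm 1 i]
  · rw [Q278.QDel.gb_lt x (by omega)]

theorem D_eq (x : RatFunc ℚ) (m n : ℕ) : D x m n = Q278.QDel.D x m n := by
  unfold D Q278.QDel.D
  simp only [gauss_eq, add_comm n m]

theorem nl_of_closure {x : RatFunc ℚ} (hx : x ∈ Subsemiring.closure {q, q⁻¹}) :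
    NonnegLaurent x := by
  have hq : (q : RatFunc ℚ) ≠ 0 := RatFunc.X_ne_zero
  refine Subsemiring.closure_induction (p := fun x _ => NonnegLaurent x) ?_ ?_ ?_ ?_ ?_ hx
  · intro y hy
    rcases hy with rfl | rfl
    · exact ⟨0, Polynomial.X, by simp⟩
    · exact ⟨1, 1, by rw [pow_one, mul_inv_cancel₀ hq]; simp⟩
  · exact ⟨0, 0, by simp⟩
  · exact ⟨0, 1, by simp⟩
  · rintro y z _ _ ⟨N, f, hf⟩ ⟨M, g, hg⟩
    refine ⟨N + M, Polynomial.X ^ M * f + Polynomial.X ^ N * g, ?_⟩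
    simp only [Polynomial.map_add, Polynomial.map_mul, Polynomial.map_pow, Polynomial.map_X,
      map_add, map_mul, map_pow, RatFunc.algebraMap_X]
    rw [← hf, ← hg]
    ring
  · rintro y z _ _ ⟨N, f, hf⟩ ⟨M, g, hg⟩
    refine ⟨N + M, f * g, ?_⟩
    rw [Polynomial.map_mul, map_mul, ← hf, ← hg]
    ring

/-- For all positive integers `m`, `n`, `r`, each of `A`, `B`, `C` is a Laurent polynomial in `q`
with nonnegative integer coefficients. -/
theorem result (m n r : ℕ) (hm : 0 < m) (hn : 0 < n) (_hr : 0 < r) :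
    NonnegLaurent (A m n) ∧ NonnegLaurent (B m n r) ∧ NonnegLaurent (C m n r) := by
  have h0 : (q : RatFunc ℚ) ≠ 0 := RatFunc.X_ne_zero
  have hq : ∀ i, 0 < i → (1 : RatFunc ℚ) - q ^ i ≠ 0 := fun i hi => Q278.Blk.one_sub_q_ne hi
  have hS : q ∈ Subsemiring.closure ({q, q⁻¹} : Set (RatFunc ℚ)) :=
    Subsemiring.subset_closure (by simp)
  have hSi : q⁻¹ ∈ Subsemiring.closure ({q, q⁻¹} : Set (RatFunc ℚ)) :=
    Subsemiring.subset_closure (by simp)
  have hP : ∀ k, P m k = Q278.QDel.D q m k * Q278.QDel.D q⁻¹ m k := by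
    intro k; unfold P; rw [D_eq, D_eq]
  have hE := Q278.DP.Ex_pow h0 hq hS hSi (Q278.DP.Ex_prod h0 hq hS hSi m) r
  obtain ⟨n', rfl⟩ : ∃ n', n = n' + 1 := ⟨n - 1, by omega⟩
  refine ⟨nl_of_closure ?_, nl_of_closure ?_, nl_of_closure ?_⟩
  · unfold A
    simp only [hP]
    exact Q278.DP.A_mem h0 hq hS hSi m n' hm
  · unfold B
    simp only [hP]
    exact Q278.DP.B_mem h0 hq hS hSi hE hn
  · unfold C
    simp only [hP]
    exact Q278.DP.C_mem h0 hq hS hSi hE n'

end Pool.Agent.Results.MP_870110_co.Full
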